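import Pool.Agent.Lib.MP_29e7a7_co.PP.Defs

/-!
# Basic facts on list paths
-/

set_option autoImplicit false

namespace Pool.Agent.Lib.MP_29e7a7_co.PP

variable {V : Type} {G : SimpleGraph V}

theorem IsP.nodup {l : List V} (h : IsP G l) : l.Nodup := h.1

theorem IsP.chain {l : List V} (h : IsP G l) : l.IsChain G.Adj := h.2

theorem isP_nil : IsP G [] := ⟨List.nodup_nil, List.isChain_nil⟩

theorem isP_singleton (a : V) : IsP G [a] := ⟨List.nodup_singleton a, List.isChain_singleton a⟩

theorem IsP.left {l l' : List V} (h : IsP G (l ++ l')) : IsP G l :=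
  ⟨(List.nodup_append.mp h.1).1, (List.isChain_append.mp h.2).1⟩

theorem IsP.right {l l' : List V} (h : IsP G (l ++ l')) : IsP G l' :=
  ⟨(List.nodup_append.mp h.1).2.1, (List.isChain_append.mp h.2).2.1⟩

theorem IsP.reverse {l : List V} (h : IsP G l) : IsP G l.reverse := by
  refine ⟨List.nodup_reverse.mpr h.1, ?_⟩
  rw [List.isChain_reverse]
  exact h.2.imp (fun _ _ hab => hab.symm)

theorem isP_reverse {l : List V} : IsP G l.reverse ↔ IsP G l :=
  ⟨fun h => by simpa using h.reverse, fun h => h.reverse⟩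

/-- splitting a path at a vertex -/
theorem isP_split {l₁ l₂ : List V} {c : V} :
    IsP G (l₁ ++ c :: l₂) ↔ IsP G (l₁ ++ [c]) ∧ IsP G (c :: l₂) ∧ List.Disjoint l₁ l₂ := by
  constructor
  · rintro ⟨hn, hc⟩
    rw [List.isChain_split] at hc
    rw [List.nodup_append] at hn
    obtain ⟨h1, h2, h3⟩ := hn
    refine ⟨⟨?_, hc.1⟩, ⟨h2, hc.2⟩, ?_⟩
    · rw [List.nodup_append]
      refine ⟨h1, List.nodup_singleton c, ?_⟩
      intro a ha b hb
      rw [List.mem_singleton] at hb
      subst hb
      exact h3 a ha b (List.mem_cons_self)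
    · intro a ha hb
      exact h3 a ha a (List.mem_cons_of_mem _ hb) rfl
  · rintro ⟨⟨hn1, hc1⟩, ⟨hn2, hc2⟩, hd⟩
    refine ⟨?_, List.isChain_split.mpr ⟨hc1, hc2⟩⟩
    rw [List.nodup_append] at hn1 ⊢
    refine ⟨hn1.1, hn2, ?_⟩
    intro a ha b hb hab
    subst hab
    rcases List.mem_cons.mp hb with rfl | hb
    · exact hn1.2.2 _ ha _ (List.mem_singleton_self _) rfl
    · exact hd ha hb

theorem Con.reverse {C : Finset V} {T : Set V} {a b : V} {μ : List V} (h : Con G C T a μ b) :
    Con G C T b μ.reverse a := by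
  refine ⟨?_, ?_⟩
  · have := h.1.reverse
    simpa using this
  · intro v hv
    exact h.2 v (List.mem_reverse.mp hv)

theorem Con.mono {C : Finset V} {T T' : Set V} {a b : V} {μ : List V} (h : Con G C T a μ b)
    (hT : T' ⊆ T) : Con G C T' a μ b :=
  ⟨h.1, fun v hv => ⟨(h.2 v hv).1, fun h' => (h.2 v hv).2 (hT h')⟩⟩

/-- joining two disjoint paths by a connection -/
theorem isP_join {C : Finset V} {T : Set V} {a b : V} {μ l₁ l₂ : List V}
    (h1 : IsP G (l₁ ++ [a])) (h2 : IsP G (b :: l₂)) (hd : List.Disjoint (l₁ ++ [a]) (b :: l₂))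
    (hc : Con G C T a μ b) (hT1 : ∀ v ∈ l₁, v ∈ T) (hT2 : ∀ v ∈ l₂, v ∈ T) :
    IsP G (l₁ ++ a :: (μ ++ b :: l₂)) := by
  have h3 : IsP G (a :: (μ ++ b :: l₂)) := by
    have h4 : a :: (μ ++ b :: l₂) = (a :: μ) ++ b :: l₂ := rfl
    rw [h4, isP_split]
    refine ⟨by simpa using hc.1, h2, ?_⟩
    intro v hv hv2
    rcases List.mem_cons.mp hv with rfl | hv
    · exact hd (by simp) (List.mem_cons_of_mem _ hv2)
    · exact (hc.2 v hv).2 (hT2 v hv2)
  rw [isP_split]
  refine ⟨h1, h3, ?_⟩
  intro v hv hv2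
  rcases List.mem_append.mp hv2 with hv2 | hv2
  · exact (hc.2 v hv2).2 (hT1 v hv)
  · exact hd (List.mem_append_left _ hv) hv2

/-- rotation: `x b y a w` becomes `x b μ⁻¹ a y⁻¹` -/
theorem isP_rotate {C : Finset V} {T : Set V} {a b : V} {μ x y w : List V}
    (h : IsP G (x ++ b :: (y ++ a :: w))) (hc : Con G C T a μ b)
    (hT : ∀ v ∈ x ++ b :: (y ++ a :: w), v ∈ T) :
    IsP G (x ++ b :: (μ.reverse ++ a :: y.reverse)) := by
  have h' := h
  rw [isP_split] at h
  obtain ⟨h1, h2, h3⟩ := h
  have h4 : IsP G (y ++ [a]) := by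
    have h5 : IsP G (y ++ a :: w) := IsP.right (l := [b]) (by simpa using h2)
    exact (isP_split.mp h5).1
  have h6 : IsP G (a :: y.reverse) := by
    have := h4.reverse
    simpa using this
  have hn := h'.1
  refine isP_join h1 h6 ?_ hc.reverse ?_ ?_
  · intro v hv hv2
    have hv3 : v ∈ y ++ a :: w := by
      rcases List.mem_cons.mp hv2 with rfl | hv2
      · simp
      · simp [List.mem_reverse.mp hv2]
    rcases List.mem_append.mp hv with hv | hv
    · exact h3 hv hv3
    · rw [List.mem_singleton] at hv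
      subst hv
      have := h2.1
      rw [List.nodup_cons] at this
      exact this.1 hv3
  · intro v hv
    exact hT v (by simp [hv])
  · intro v hv
    exact hT v (by simp [List.mem_reverse.mp hv])

theorem IsP.length_le [Fintype V] {l : List V} (h : IsP G l) : l.length ≤ Fintype.card V :=
  h.1.length_le_card

theorem miss_le_length [DecidableEq V] (l q : List V) : miss l q ≤ l.length :=
  (Finset.card_le_card Finset.sdiff_subset).trans l.toFinset_card_le

/-- `l` misses at most as many elements as the list `d` of dropped elements -/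
theorem miss_le_of [DecidableEq V] {l q d : List V} (h : ∀ v ∈ l, v ∈ q ∨ v ∈ d) :
    miss l q ≤ d.length := by
  refine (Finset.card_le_card ?_).trans d.toFinset_card_le
  intro v hv
  rw [Finset.mem_sdiff, List.mem_toFinset, List.mem_toFinset] at hv
  rw [List.mem_toFinset]
  exact (h v hv.1).resolve_left hv.2

/-- transitivity with a list of dropped elements -/
theorem miss_trans [DecidableEq V] {l l' q d : List V} (h : ∀ v ∈ l, v ∈ l' ∨ v ∈ d) :
    miss l q ≤ d.length + miss l' q := by
  have h1 : l.toFinset \ q.toFinset ⊆ d.toFinset ∪ (l'.toFinset \ q.toFinset) := by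
    intro v hv
    rw [Finset.mem_sdiff, List.mem_toFinset, List.mem_toFinset] at hv
    rw [Finset.mem_union, Finset.mem_sdiff, List.mem_toFinset, List.mem_toFinset,
      List.mem_toFinset]
    rcases h v hv.1 with h2 | h2
    · exact Or.inr ⟨h2, hv.2⟩
    · exact Or.inl h2
  exact (Finset.card_le_card h1).trans ((Finset.card_union_le _ _).trans
    (Nat.add_le_add_right d.toFinset_card_le _))

theorem length_le_of_miss [DecidableEq V] {l q : List V} (hl : l.Nodup) :
    l.length ≤ q.length + miss l q := by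
  have h1 : l.toFinset ⊆ q.toFinset ∪ (l.toFinset \ q.toFinset) := by
    intro v hv
    rw [Finset.mem_union, Finset.mem_sdiff]
    tauto
  have h2 := (Finset.card_le_card h1).trans (Finset.card_union_le _ _)
  rw [List.toFinset_card_of_nodup hl] at h2
  exact h2.trans (Nat.add_le_add_right q.toFinset_card_le _)

theorem Lnk.mono {C : Finset V} {A A' B : Set V} {j : ℕ} {I I' : Finset ℕ} {R : ℕ → List V}
    (h : Lnk G C A B j I R) (hI : I' ⊆ I) (hA : A ⊆ A') : Lnk G C A' B j I' R where
  path := fun k hk => h.path k (hI hk)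
  sub := fun k hk => h.sub k (hI hk)
  len := fun k hk => h.len k (hI hk)
  hd := fun k hk => by
    obtain ⟨a, ha, h2⟩ := h.hd k (hI hk)
    exact ⟨a, hA ha, h2⟩
  lst := fun k hk => h.lst k (hI hk)
  dis := fun k hk k' hk' => h.dis k (hI hk) k' (hI hk')

/-- the other inclusion of the end sets -/
theorem Lnk.mono2 {C : Finset V} {A B B' : Set V} {j : ℕ} {I : Finset ℕ} {R : ℕ → List V}
    (h : Lnk G C A B j I R) (hB : B ⊆ B') : Lnk G C A B' j I R where
  path := h.path
  sub := h.sub
  len := h.len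
  hd := h.hd
  lst := fun k hk => by
    obtain ⟨a, ha, h2⟩ := h.lst k hk
    exact ⟨a, hB ha, h2⟩
  dis := h.dis

theorem Det.mono {U U' : Finset V} {t t' : ℕ} (h : Det G U t) (hU : U' ⊆ U) (ht : t ≤ t') :
    Det G U' t' :=
  fun l hl hl2 => (h l hl fun v hv => hU (hl2 v hv)).trans ht

end Pool.Agent.Lib.MP_29e7a7_co.PP
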