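import Mathlib.Combinatorics.SimpleGraph.Paths
import Mathlib.Combinatorics.Pigeonhole
import Mathlib.Algebra.Order.BigOperators.Group.Finset
import Mathlib.Tactic
import Mathlib.Data.Real.Basic
import Mathlib.Data.List.Chain

/-!
# Asymptotic path partition theorem: definitions

Paths are lists of vertices.
-/

set_option autoImplicit false

namespace Pool.Agent.Lib.MP_29e7a7_co.PP

variable {V : Type}

/-- the list `l` is a path of `G` -/
def IsP (G : SimpleGraph V) (l : List V) : Prop := l.Nodup ∧ l.IsChain G.Adj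

/-- the list `o` is a cycle of `G` (closed by an edge from its last to its first element) -/
def IsCyc (G : SimpleGraph V) (o : List V) : Prop :=
  o.Nodup ∧ ∃ (x : V) (l : List V), o = x :: l ∧ (x :: (l ++ [x])).IsChain G.Adj

/-- number of elements of `l` that are not in `q` -/
def miss [DecidableEq V] (l q : List V) : ℕ := (l.toFinset \ q.toFinset).card

/-- `R k`, `k ∈ I`, are pairwise disjoint paths in `C` with at most `j + 1` vertices each, from `A`
to `B` -/
structure Lnk (G : SimpleGraph V) (C : Finset V) (A B : Set V) (j : ℕ) (I : Finset ℕ)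
    (R : ℕ → List V) : Prop where
  path : ∀ k ∈ I, IsP G (R k)
  sub : ∀ k ∈ I, ∀ v ∈ R k, v ∈ C
  len : ∀ k ∈ I, (R k).length ≤ j + 1
  hd : ∀ k ∈ I, ∃ a ∈ A, (R k).head? = some a
  lst : ∀ k ∈ I, ∃ b ∈ B, (R k).getLast? = some b
  dis : ∀ k ∈ I, ∀ k' ∈ I, k ≠ k' → List.Disjoint (R k) (R k')

/-- between any two disjoint subsets of `C` with at least `e` vertices there are `K` pairwise
disjoint paths in `C` with at most `L + 1` vertices each -/
def Linked (G : SimpleGraph V) (e K L : ℕ) (C : Finset V) : Prop :=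
  ∀ S S' : Finset V, S ⊆ C → S' ⊆ C → Disjoint S S' → e ≤ S.card → e ≤ S'.card →
    ∃ R : ℕ → List V, Lnk G C (S : Set V) (S' : Set V) L (Finset.range K) R

/-- `a μ b` is a path whose inner vertices `μ` are in `C` and not in `T` -/
def Con (G : SimpleGraph V) (C : Finset V) (T : Set V) (a : V) (μ : List V) (b : V) : Prop :=
  IsP G (a :: (μ ++ [b])) ∧ ∀ v ∈ μ, v ∈ C ∧ v ∉ T

/-- every path in `U` has at most `t` vertices -/
def Det (G : SimpleGraph V) (U : Finset V) (t : ℕ) : Prop :=
  ∀ l : List V, IsP G l → (∀ v ∈ l, v ∈ U) → l.length ≤ t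

end Pool.Agent.Lib.MP_29e7a7_co.PP
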