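import Pool.Agent.Lib.MP_29e7a7_co.PP.Two
import Pool.Agent.Lib.MP_29e7a7_co.PP.P.hit
import Pool.Agent.Lib.MP_29e7a7_co.PP.P.cell
import Pool.Agent.Lib.MP_29e7a7_co.PP.P.ends
import Pool.Agent.Lib.MP_29e7a7_co.PP.P.mrg
import Pool.Agent.Lib.MP_29e7a7_co.PP.P.cls
import Pool.Agent.Lib.MP_29e7a7_co.PP.P.cyc
import Pool.Agent.Lib.MP_29e7a7_co.PP.P.ins
import Pool.Agent.Lib.MP_29e7a7_co.PP.P.seq
import Pool.Agent.Lib.MP_29e7a7_co.PP.P.sep
import Pool.Agent.Lib.MP_29e7a7_co.PP.P.ball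
import Pool.Agent.Lib.MP_29e7a7_co.PP.P.dec
import Pool.Agent.Lib.MP_29e7a7_co.PP.P.bbd
import Pool.Agent.Lib.MP_29e7a7_co.PP.P.abd
import Pool.Agent.Lib.MP_29e7a7_co.PP.P.prt
import Pool.Agent.Lib.MP_29e7a7_co.PP.P.num
import Pool.Agent.Lib.MP_29e7a7_co.PP.P.mul
import Pool.Agent.Lib.MP_29e7a7_co.PP.P.wlk
import Pool.Agent.Lib.MP_29e7a7_co.PP.P.thA
import Pool.Agent.Lib.MP_29e7a7_co.PP.P.thB
import Pool.Agent.Lib.MP_29e7a7_co.PP.P.thC
import Pool.Agent.Lib.MP_29e7a7_co.PP.P.uni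

/-!
# Asymptotic path partition theorem: assembly of the pieces
-/

set_option autoImplicit false

namespace Pool.Agent.Lib.MP_29e7a7_co.PP

theorem f_mrg : T_mrg := p_mrg p_hit p_cell p_ends

theorem f_cls : T_cls := p_cls p_hit p_cell p_ends f_mrg

theorem f_cyc : T_cyc := p_cyc p_hit

theorem f_ins : T_ins := p_ins f_cls f_cyc

theorem f_seq : T_seq := p_seq f_ins

theorem f_dec : T_dec := p_dec p_sep p_ball

theorem f_bbd : T_bbd := p_bbd f_ins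

theorem f_abd : T_abd := p_abd f_seq

theorem f_prt : T_prt := p_prt f_dec f_bbd f_abd

theorem f_two : T_two := p_two f_prt p_num

theorem f_mul : T_mul := p_mul f_two

theorem f_thA : T_thA := p_thA f_mul p_wlk

theorem f_thB : T_thB := p_thB f_thA

theorem f_thC : T_thC := p_thC f_thA

theorem f_uni : T_uni := p_uni f_thA

end Pool.Agent.Lib.MP_29e7a7_co.PP
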