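import Pool.Agent.Lib.MP_29e7a7_co.PP.Basic

/-!
# Asymptotic path partition theorem: the pieces

Paths are lists (`IsP`). Useful facts are in `Basic.lean`: `IsP.left`, `IsP.right`, `IsP.reverse`,
`isP_split` (a path may be split at a vertex), `isP_join` (join two disjoint paths `l₁ a` and `b l₂`
by a connection `a μ b`), `isP_rotate`, `Con.reverse`, `Con.mono`, `miss_le_of`, `miss_trans`,
`length_le_of_miss`, `Lnk.mono`, `Lnk.mono2`, `Det.mono`.

`m = 2 * (N / s + 1)` is the number of cells, `D = 3 * e + (L + 2) * s` is the loss.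
-/

set_option autoImplicit false

namespace Pool.Agent.Lib.MP_29e7a7_co.PP

open Finset

/-! ## Part 1: lists -/

/-- [PP hit] (about 120 lines) First hits.

Proof. Lemma: let `ρ` be a list whose first element is in `A` and whose last element is in `B`
(`A ∩ B = ∅`, `A, B ⊆ T`). Then `ρ = ρ₀ ++ a :: (μ ++ b :: ρ₁)` with `a ∈ A`, `b ∈ T`, `b ∉ A` and no
element of `μ` in `T`: split `ρ` at its last element in `A` (induction on the list, or on the
reversed list): `ρ = ρ₀ ++ a :: ρ'` with no element of `ρ'` in `A`; the last element of `ρ` is in `B`,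
so `ρ'` is not empty and has an element in `T`; split `ρ'` at its first element in `T`.
Apply this to every `R k`, `k ∈ I` (choose; use an element of `V`, which exists since `I` is not
empty, as a default value). `a :: (μ ++ [b])` and `b :: ρ₁` are sublists of consecutive elements of
`R k` (`isP_split`, `IsP.left`, `IsP.right`), the last element of `b :: ρ₁` is the last one of `R k`, and
`(b :: ρ₁).length ≤ (R k).length - 1 ≤ j`. Disjointness comes from `Lnk.dis`. -/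
def S_hit : Prop :=
  ∀ (V : Type) (G : SimpleGraph V) (C : Finset V) (T A B : Set V) (j : ℕ) (I : Finset ℕ)
    (R : ℕ → List V), A ⊆ T → B ⊆ T → Disjoint A B → I.Nonempty → Lnk G C A B j I R →
    ∃ (a b : ℕ → V) (μ ρ : ℕ → List V),
      (∀ k ∈ I, a k ∈ A ∧ b k ∈ T ∧ b k ∉ A ∧ a k ∈ C ∧ b k ∈ C ∧ Con G C T (a k) (μ k) (b k) ∧
        (b k :: ρ k).length ≤ j) ∧
      (∀ k ∈ I, ∀ k' ∈ I, k ≠ k' →
        List.Disjoint (a k :: (μ k ++ [b k])) (a k' :: (μ k' ++ [b k']))) ∧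
      ∀ j' : ℕ, j ≤ j' + 1 → ∀ I' ⊆ I, Lnk G C {v | ∃ k ∈ I', b k = v} B j' I'
        (fun k => b k :: ρ k)

/-- [PP cell] (about 100 lines) Pigeonhole on the position in two lists.

Proof. For `k ∈ I` let `f k = (true, l₁.idxOf (b k) / s)` if `b k ∈ l₁` and
`(false, l₂.idxOf (b k) / s)` otherwise (classical decidable equality). The indices are `< N` or
`≤ N`, so `f` maps `I` to `{true, false} × range (N / s + 1)`, a set with `2 * (N / s + 1)` elements.
`Finset.exists_lt_card_fiber_of_mul_lt_card_of_maps_to` gives a fibre `I'` with more than `M`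
elements, say over `(true, c)`: `x = l₁.take (c * s)`, `z = (l₁.drop (c * s)).take s`,
`y = (l₁.drop (c * s)).drop s`. -/
def S_cell : Prop :=
  ∀ (V : Type) (N s M : ℕ) (I : Finset ℕ) (b : ℕ → V) (l₁ l₂ : List V), l₁.Nodup → l₂.Nodup →
    l₁.length ≤ N → l₂.length ≤ N → 1 ≤ s → (∀ k ∈ I, b k ∈ l₁ ∨ b k ∈ l₂) →
    M * (2 * (N / s + 1)) < I.card →
    ∃ I' ⊆ I, M < I'.card ∧
      ((∃ x z y : List V, l₁ = x ++ (z ++ y) ∧ z.length ≤ s ∧ ∀ k ∈ I', b k ∈ z) ∨
        ∃ x z y : List V, l₂ = x ++ (z ++ y) ∧ z.length ≤ s ∧ ∀ k ∈ I', b k ∈ z)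

/-- [PP ends] (about 60 lines) The first and the last of some elements of a list.

Proof. First: induction on `z` (`z = c :: z'`; if `c = b k₁` for some `k₁ ∈ I` take `z₁ = []`, all other
`b k` are in `z'` since they are `≠ c`; otherwise all `b k` are in `z'`, induction). Last: apply the
first claim to `z.reverse`. -/
def S_ends : Prop :=
  ∀ (V : Type) (I : Finset ℕ) (b : ℕ → V) (z : List V), I.Nonempty → (∀ k ∈ I, b k ∈ z) →
    (∀ k ∈ I, ∀ k' ∈ I, k ≠ k' → b k ≠ b k') →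
    (∃ k₁ ∈ I, ∃ z₁ z₂ : List V, z = z₁ ++ b k₁ :: z₂ ∧ ∀ k ∈ I, k ≠ k₁ → b k ∈ z₂) ∧
      ∃ k₁ ∈ I, ∃ z₁ z₂ : List V, z = z₁ ++ b k₁ :: z₂ ∧ ∀ k ∈ I, k ≠ k₁ → b k ∈ z₁

/-! ## Part 2: merging -/

/-- [PP mrg] (about 250 lines) Merging two paths `p e` and `p' e'` with many short disjoint paths
from the end `e` to the end `e'`.

Proof. Induction on `j` (all lists general). Write `P = p ++ e`, `P' = p' ++ e'`, `T` = the vertices of
`P` and `P'`. `I` is not empty. `h1` gives `a k ∈ e`, `b k ∉ e`, `b k ∈ T`, `μ k`, `ρ k` for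
`A = {v | v ∈ e}`, `B = {v | v ∈ e'}`. Since `(b k :: ρ k).length ≤ j`, `j = j₁ + 1` (so there is no base case
to treat).
Case 1: `b k ∈ e'` for one `k ∈ I`. `e = u ++ a :: w`, `e' = u' ++ b :: w'` (`List.append_of_mem`).
`q = (p ++ u) ++ a :: (μ ++ b :: (p' ++ u').reverse)` is a path by `isP_join`
(`b :: (p' ++ u').reverse = ((p' ++ u') ++ [b]).reverse`), and `miss ≤ w.length + w'.length`
(`miss_le_of`).
Case 2: all `b k ∈ p` or `b k ∈ p'`. `h2` with `l₁ = p`, `l₂ = p'`, `M = (2 * (N / s + 1) + 1) ^ j₁` gives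
`I'` with `M < I'.card` and a piece `z`.
Case 2a: `p = x ++ (z ++ y)`. `h3` (first) gives `k₁ ∈ I'`, `z = z₁ ++ b k₁ :: z₂`, all other
`b k ∈ z₂`. `e = u ++ a k₁ :: w`. By `isP_rotate` (with `x` there = `x ++ z₁`, `y` there =
`z₂ ++ y ++ u`) the list
`(x ++ z₁) ++ b :: (μ.reverse ++ a :: (z₂ ++ y ++ u).reverse) = p₁ ++ z₂.reverse` with
`p₁ = (x ++ z₁) ++ b :: (μ.reverse ++ a :: (y ++ u).reverse)` is a path; it is disjoint from `P'`
(the elements of `μ` are not in `T`). Induction hypothesis for `j₁`, `p₁`, `z₂.reverse`, `p'`, `e'`,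
`I'.erase k₁` and the paths `b k :: ρ k` (last claim of `h1`, `Lnk.mono`): a path `q` that misses at
most `z₂.length + e'.length + j₁ * s` elements of `p₁ ++ z₂.reverse` and `P'`; `P` is contained in
`p₁ ++ z₂.reverse` and `w` (`miss_trans`), `z₂.length + 1 ≤ z.length ≤ s`, `w.length ≤ e.length`. The
elements of `q` are in `p₁ ++ z₂.reverse`, `P'` or `C`, and those of `p₁` are in `P` or `C`.
Case 2b: `p' = x ++ (z ++ y)`. `h3` (last) gives `k₁ ∈ I'`, `z = z₁ ++ b k₁ :: z₂`, all other `b k ∈ z₁`.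
By `isP_join` the list `(p ++ u) ++ a :: (μ ++ b :: (z₂ ++ y ++ e')) = p₂ ++ e'` with
`p₂ = (p ++ u) ++ a :: (μ ++ b :: (z₂ ++ y))` is a path. It is disjoint from the path `x ++ z₁`.
Induction hypothesis for `j₁` with the pair `x`, `z₁` in the place of `p`, `e`, and `p₂`, `e'` in the place
of `p'`, `e'`, `I'.erase k₁`, paths `b k :: ρ k`. -/
def S_mrg : Prop :=
  S_hit → S_cell → S_ends →
  ∀ (V : Type) [Fintype V] [DecidableEq V] (G : SimpleGraph V) (N s : ℕ) (C : Finset V),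
    Fintype.card V ≤ N → 1 ≤ s → ∀ (j : ℕ) (p e p' e' : List V) (I : Finset ℕ) (R : ℕ → List V),
    IsP G (p ++ e) → IsP G (p' ++ e') → List.Disjoint (p ++ e) (p' ++ e') →
    Lnk G C {v | v ∈ e} {v | v ∈ e'} j I R → (2 * (N / s + 1) + 1) ^ j ≤ I.card →
    ∃ q : List V, IsP G q ∧ (∀ v ∈ q, v ∈ p ++ e ∨ v ∈ p' ++ e' ∨ v ∈ C) ∧
      miss (p ++ e ++ (p' ++ e')) q ≤ e.length + e'.length + j * s

/-- the conclusion of `S_mrg` -/
def T_mrg : Prop :=
  ∀ (V : Type) [Fintype V] [DecidableEq V] (G : SimpleGraph V) (N s : ℕ) (C : Finset V),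
    Fintype.card V ≤ N → 1 ≤ s → ∀ (j : ℕ) (p e p' e' : List V) (I : Finset ℕ) (R : ℕ → List V),
    IsP G (p ++ e) → IsP G (p' ++ e') → List.Disjoint (p ++ e) (p' ++ e') →
    Lnk G C {v | v ∈ e} {v | v ∈ e'} j I R → (2 * (N / s + 1) + 1) ^ j ≤ I.card →
    ∃ q : List V, IsP G q ∧ (∀ v ∈ q, v ∈ p ++ e ∨ v ∈ p' ++ e' ∨ v ∈ C) ∧
      miss (p ++ e ++ (p' ++ e')) q ≤ e.length + e'.length + j * s

/-- [PP cls] (about 250 lines) Closing a path `f' m f` with many short disjoint paths from its end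
`f` to its start `f'`, in the presence of a second path `p`.

Proof. Induction on `j` (lists general). `Q = f' ++ m ++ f`, `T` = the vertices of `p` and `Q`. `h1` with
`A = {v | v ∈ f}`, `B = {v | v ∈ f'}` (disjoint since `Q` has no double elements); `j = j₁ + 1`.
Case 1: `b k ∈ f'` for one `k`. `f' = x ++ b :: y`, `f = u ++ a :: w`. Cycle
`o = b :: (y ++ m ++ u ++ a :: μ)`: the chain of `b :: (y ++ m ++ u ++ a :: (μ ++ [b]))` comes from
`List.isChain_split` (the part `b :: (y ++ m ++ u ++ [a])` is a part of `Q`, `a :: (μ ++ [b])` is a path);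
no double elements since `μ` avoids `T`. `miss ≤ x.length + w.length`. Right alternative.
Case 2: all `b k ∈ m` or `b k ∈ p`. `h2` with `l₁ = m`, `l₂ = p`, `M = (2 * (N / s + 1) + 1) ^ j₁`.
Case 2a: `m = x ++ (z ++ y)`, `z = z₁ ++ b k₁ :: z₂`, all other `b k ∈ z₂` (`h3`, first). Rotation as in
`S_mrg`: `Q₁ = f' ++ m₁ ++ z₂.reverse` is a path with
`m₁ = (x ++ z₁) ++ b :: (μ.reverse ++ a :: (y ++ u).reverse)` (`f = u ++ a :: w`), disjoint from `p`.
Induction hypothesis for `p`, `f'`, `m₁`, `z₂.reverse`, `I'.erase k₁`, `b k :: ρ k`. In both alternatives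
the loss is at most `w.length + (f'.length + z₂.length + j₁ * s)`; the elements of `Q₁` are in `Q` or `C`.
Case 2b: `p = x ++ (z ++ y)`, `z = z₁ ++ b k₁ :: z₂`, all other `b k ∈ z₂` (first). By `isP_join`
(connection `b μ.reverse a`) the list `P₂ = (x ++ z₁) ++ b :: (μ.reverse ++ a :: (f' ++ m ++ u).reverse)`
is a path, its end is `f'.reverse`; `P₁ = y.reverse ++ z₂.reverse` is a path disjoint from `P₂`.
`h4` (merging) with `p = y.reverse`, `e = z₂.reverse`,
`p' = (x ++ z₁) ++ b :: (μ.reverse ++ a :: (m ++ u).reverse)`, `e' = f'.reverse`, `j₁`, `I'.erase k₁`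
gives the left alternative. -/
def S_cls : Prop :=
  S_hit → S_cell → S_ends → T_mrg →
  ∀ (V : Type) [Fintype V] [DecidableEq V] (G : SimpleGraph V) (N s : ℕ) (C : Finset V),
    Fintype.card V ≤ N → 1 ≤ s → ∀ (j : ℕ) (p f' m f : List V) (I : Finset ℕ) (R : ℕ → List V),
    IsP G p → IsP G (f' ++ m ++ f) → List.Disjoint p (f' ++ m ++ f) →
    Lnk G C {v | v ∈ f} {v | v ∈ f'} j I R → (2 * (N / s + 1) + 1) ^ j ≤ I.card →
    (∃ q : List V, IsP G q ∧ (∀ v ∈ q, v ∈ p ∨ v ∈ f' ++ m ++ f ∨ v ∈ C) ∧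
      miss (p ++ (f' ++ m ++ f)) q ≤ f'.length + f.length + j * s) ∨
    ∃ o : List V, IsCyc G o ∧ (∀ v ∈ o, (v ∈ f' ++ m ++ f ∨ v ∈ C) ∧ v ∉ p) ∧
      miss (f' ++ m ++ f) o ≤ f'.length + f.length + j * s

/-- the conclusion of `S_cls` -/
def T_cls : Prop :=
  ∀ (V : Type) [Fintype V] [DecidableEq V] (G : SimpleGraph V) (N s : ℕ) (C : Finset V),
    Fintype.card V ≤ N → 1 ≤ s → ∀ (j : ℕ) (p f' m f : List V) (I : Finset ℕ) (R : ℕ → List V),
    IsP G p → IsP G (f' ++ m ++ f) → List.Disjoint p (f' ++ m ++ f) →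
    Lnk G C {v | v ∈ f} {v | v ∈ f'} j I R → (2 * (N / s + 1) + 1) ^ j ≤ I.card →
    (∃ q : List V, IsP G q ∧ (∀ v ∈ q, v ∈ p ∨ v ∈ f' ++ m ++ f ∨ v ∈ C) ∧
      miss (p ++ (f' ++ m ++ f)) q ≤ f'.length + f.length + j * s) ∨
    ∃ o : List V, IsCyc G o ∧ (∀ v ∈ o, (v ∈ f' ++ m ++ f ∨ v ∈ C) ∧ v ∉ p) ∧
      miss (f' ++ m ++ f) o ≤ f'.length + f.length + j * s

/-- [PP cyc] (about 200 lines) Inserting a cycle `o` into a path `p`.

Proof. `h1` with `T` = the vertices of `o` and `p`, `A = {v | v ∈ o}`, `B = {v | v ∈ p}`: `a k ∈ o`,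
`b k ∈ p` (`b k ∈ T`, `b k ∉ o`), connections `a k, μ k, b k`, pairwise disjoint. Pigeonhole on the pair
`(o.idxOf (a k) / s, p.idxOf (b k) / s)`, which has at most `(N / s + 1) ^ 2` values: there are `k ≠ k'`
with the same pair, and (exchange `k`, `k'`) `b = b k` comes before `b' = b k'` in `p`:
`p = x ++ b :: (y ++ b' :: z)` with `y.length < s`. Let `a = a k`, `a' = a k'`. A rotation of the cycle `o`
(prove: if `o = l ++ l'` is a cycle and `l' ≠ []` then `l' ++ l` is a cycle) starts with `a`: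
`a :: (o₁ ++ a' :: o₂)`, where `o₁.length < s` or `o₂.length < s` (according to the order of `a`, `a'` in
`o`). In the first case the route `r = a :: (o₂.reverse ++ [a'])` is a path (the cycle gives that
`a' :: (o₂ ++ [a])` is a chain), in the second case `r = a :: (o₁ ++ [a'])`. Both miss fewer than `s`
elements of `o`. By `isP_join` twice `q = x ++ b :: (μ.reverse ++ r ++ μ' ++ b' :: z)` (`μ = μ k`,
`μ' = μ k'`) is a path; in the second application `T` is enlarged by the elements of `μ`, which are not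
in `μ'` (the connections are pairwise disjoint). It misses at most `y` and fewer than `s` elements of
`o`. -/
def S_cyc : Prop :=
  S_hit →
  ∀ (V : Type) [Fintype V] [DecidableEq V] (G : SimpleGraph V) (N s : ℕ) (C : Finset V),
    Fintype.card V ≤ N → 1 ≤ s → ∀ (j : ℕ) (p o : List V) (I : Finset ℕ) (R : ℕ → List V),
    IsP G p → IsCyc G o → List.Disjoint o p → Lnk G C {v | v ∈ o} {v | v ∈ p} j I R →
    (N / s + 1) ^ 2 < I.card →
    ∃ q : List V, IsP G q ∧ (∀ v ∈ q, v ∈ p ∨ v ∈ o ∨ v ∈ C) ∧ miss (p ++ o) q ≤ 2 * s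

/-- the conclusion of `S_cyc` -/
def T_cyc : Prop :=
  ∀ (V : Type) [Fintype V] [DecidableEq V] (G : SimpleGraph V) (N s : ℕ) (C : Finset V),
    Fintype.card V ≤ N → 1 ≤ s → ∀ (j : ℕ) (p o : List V) (I : Finset ℕ) (R : ℕ → List V),
    IsP G p → IsCyc G o → List.Disjoint o p → Lnk G C {v | v ∈ o} {v | v ∈ p} j I R →
    (N / s + 1) ^ 2 < I.card →
    ∃ q : List V, IsP G q ∧ (∀ v ∈ q, v ∈ p ∨ v ∈ o ∨ v ∈ C) ∧ miss (p ++ o) q ≤ 2 * s

/-- [PP ins] (about 120 lines) Insertion lemma.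

Proof. `Q = f' ++ m ++ f` with `f' = Q.take e`, `f` = the last `e` elements. `Linked` for the sets of
elements of `f` and of `f'` (they are disjoint, have `e` elements, and are in `C`) gives `R` with
`Lnk G C f f' L (range K) R`; `(range K).card = K`. `h1` with `j = L`. Left alternative: done
(`f'.length + f.length + L * s ≤ 3 * e + (L + 2) * s`; the elements of `Q` are in `C`). Right
alternative: a cycle `o` in `C`, disjoint from `p`, which misses at most `2 * e + L * s` elements of `Q`; by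
`length_le_of_miss` it has at least `e` elements. `Linked` for the elements of `o` and the elements of
`p` in `C` gives `R'`, and `Lnk.mono2` makes `B = {v | v ∈ p}`. `h2` gives `q`, which misses at most
`2 * s` elements of `p ++ o`, so at most `2 * s + (2 * e + L * s)` elements of `p ++ Q`
(`miss (p ++ Q) q ≤ miss (p ++ o) q + miss Q o`). -/
def S_ins : Prop :=
  T_cls → T_cyc →
  ∀ (V : Type) [Fintype V] [DecidableEq V] (G : SimpleGraph V) (N s L K e : ℕ) (C : Finset V),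
    Fintype.card V ≤ N → 1 ≤ s → (2 * (N / s + 1) + 1) ^ L ≤ K → (N / s + 1) ^ 2 < K →
    Linked G e K L C → ∀ p Q : List V, IsP G p → IsP G Q → (∀ v ∈ Q, v ∈ C ∧ v ∉ p) →
    3 * e + (L + 2) * s ≤ Q.length → e ≤ (p.toFinset ∩ C).card →
    ∃ q : List V, IsP G q ∧ (∀ v ∈ q, v ∈ p ∨ v ∈ C) ∧ miss (p ++ Q) q ≤ 3 * e + (L + 2) * s

/-- the conclusion of `S_ins` -/
def T_ins : Prop :=
  ∀ (V : Type) [Fintype V] [DecidableEq V] (G : SimpleGraph V) (N s L K e : ℕ) (C : Finset V),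
    Fintype.card V ≤ N → 1 ≤ s → (2 * (N / s + 1) + 1) ^ L ≤ K → (N / s + 1) ^ 2 < K →
    Linked G e K L C → ∀ p Q : List V, IsP G p → IsP G Q → (∀ v ∈ Q, v ∈ C ∧ v ∉ p) →
    3 * e + (L + 2) * s ≤ Q.length → e ≤ (p.toFinset ∩ C).card →
    ∃ q : List V, IsP G q ∧ (∀ v ∈ q, v ∈ p ∨ v ∈ C) ∧ miss (p ++ Q) q ≤ 3 * e + (L + 2) * s

/-- [PP seq] (about 120 lines) Insertion of one path in every member of `J`.

Proof. Induction on `J.card` (`p` general). `J = ∅`: `q = p`. Otherwise take `C₀ ∈ J`, `J' = J.erase C₀`.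
`h1` for `C₀`, `Q C₀` gives `p₁` with elements in `p` or `C₀`, `miss (p ++ Q C₀) p₁ ≤ D`, so
`p.length + (Q C₀).length ≤ p₁.length + D` (`length_le_of_miss`, `p ++ Q C₀` has no double elements).
For `C ∈ J'`: the elements of `Q C` are in `C`, not in `p`, not in `C₀`, so not in `p₁`; and
`(p.toFinset ∩ C).card ≤ (p₁.toFinset ∩ C).card + D` (the elements of `p` not in `p₁` are counted by
`miss`), so `e + J'.card * D ≤ (p₁.toFinset ∩ C).card`. Induction hypothesis. -/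
def S_seq : Prop :=
  T_ins →
  ∀ (V : Type) [Fintype V] [DecidableEq V] (G : SimpleGraph V) (N s L K e : ℕ),
    Fintype.card V ≤ N → 1 ≤ s → (2 * (N / s + 1) + 1) ^ L ≤ K → (N / s + 1) ^ 2 < K →
    ∀ (J : Finset (Finset V)) (Q : Finset V → List V) (p : List V), IsP G p →
    (∀ C ∈ J, Linked G e K L C ∧ IsP G (Q C) ∧ (∀ v ∈ Q C, v ∈ C ∧ v ∉ p) ∧
      3 * e + (L + 2) * s ≤ (Q C).length ∧
      e + J.card * (3 * e + (L + 2) * s) ≤ (p.toFinset ∩ C).card) →
    (∀ C ∈ J, ∀ C' ∈ J, C ≠ C' → Disjoint C C') →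
    ∃ q : List V, IsP G q ∧ (∀ v ∈ q, v ∈ p ∨ ∃ C ∈ J, v ∈ C) ∧
      p.length + ∑ C ∈ J, (Q C).length ≤ q.length + J.card * (3 * e + (L + 2) * s)

/-- the conclusion of `S_seq` -/
def T_seq : Prop :=
  ∀ (V : Type) [Fintype V] [DecidableEq V] (G : SimpleGraph V) (N s L K e : ℕ),
    Fintype.card V ≤ N → 1 ≤ s → (2 * (N / s + 1) + 1) ^ L ≤ K → (N / s + 1) ^ 2 < K →
    ∀ (J : Finset (Finset V)) (Q : Finset V → List V) (p : List V), IsP G p →
    (∀ C ∈ J, Linked G e K L C ∧ IsP G (Q C) ∧ (∀ v ∈ Q C, v ∈ C ∧ v ∉ p) ∧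
      3 * e + (L + 2) * s ≤ (Q C).length ∧
      e + J.card * (3 * e + (L + 2) * s) ≤ (p.toFinset ∩ C).card) →
    (∀ C ∈ J, ∀ C' ∈ J, C ≠ C' → Disjoint C C') →
    ∃ q : List V, IsP G q ∧ (∀ v ∈ q, v ∈ p ∨ ∃ C ∈ J, v ∈ C) ∧
      p.length + ∑ C ∈ J, (Q C).length ≤ q.length + J.card * (3 * e + (L + 2) * s)

/-! ## Part 3: decomposition into linked sets -/

/-- [PP sep] (about 100 lines) A small set meeting all short paths.

Proof. For `n : ℕ` let `H n` be: there is `R` with `Lnk G C S S' L (range n) R`. `H 0` is true. If `H K`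
is false there is `n < K` with `H n` and not `H (n + 1)` (induction). Let `Y` be the union of the sets of
elements of `R k`, `k < n`: at most `n * (L + 1) ≤ K * (L + 1)` elements, `Y ⊆ C`. A path `l` in
`C \ Y` from `S` to `S'` with at most `L + 1` elements could be added to `R` (as `R n`), which contradicts
not `H (n + 1)`. -/
def S_sep : Prop :=
  ∀ (V : Type) [Fintype V] [DecidableEq V] (G : SimpleGraph V) (K L : ℕ) (C S S' : Finset V),
    (¬ ∃ R : ℕ → List V, Lnk G C (S : Set V) (S' : Set V) L (Finset.range K) R) →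
    ∃ Y ⊆ C, Y.card ≤ K * (L + 1) ∧ ∀ l : List V, IsP G l → (∀ v ∈ l, v ∈ C \ Y) →
      (∃ a ∈ S, l.head? = some a) → (∃ b ∈ S', l.getLast? = some b) → L + 1 < l.length

/-- [PP ball] (about 150 lines) A thin layer between two distant sets.

Proof. Let `B 0 = S ∩ W`, `B (i + 1) = B i ∪ {v ∈ W | ∃ u ∈ B i, G.Adj u v}` (`Finset.filter`,
`Nat.rec`). Then `B i ⊆ W`, `B i ⊆ B (i + 1)`, and every `v ∈ B i` is the last element of a path in `W`
with first element in `S` and at most `i + 1` elements (induction: for `v ∈ B (i + 1)`, `v ∉ B i`, take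
the path to `u`; if it contains `v` cut it after `v`, otherwise append `v`). So `B L ∩ S' = ∅`, and
`B i ∩ S' = ∅` for `i ≤ L`. The sets `B (i + 1) \ B i`, `i < L`, are pairwise disjoint, so
`∑ i < L, (B (i + 1) \ B i).card ≤ N` and some `i < L` has `(B (i + 1) \ B i).card * L ≤ N`, that is
`(B (i + 1) \ B i).card ≤ N / L` (it is easier to use
`∑ i ∈ range L, (B (i + 1) \ B i).card = (B L).card - (B 0).card`, `Finset.exists_le_of_sum_le`).
`C' = B i`, `C'' = W \ B (i + 1)`. There is no edge from `C'` to `C''` by definition of `B (i + 1)`. -/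
def S_ball : Prop :=
  ∀ (V : Type) [Fintype V] [DecidableEq V] (G : SimpleGraph V) (N L : ℕ) (W S S' : Finset V),
    Fintype.card V ≤ N → 1 ≤ L →
    (∀ l : List V, IsP G l → (∀ v ∈ l, v ∈ W) → (∃ a ∈ S, l.head? = some a) →
      (∃ b ∈ S', l.getLast? = some b) → L + 1 < l.length) →
    ∃ C' C'' : Finset V, C' ⊆ W ∧ C'' ⊆ W ∧ Disjoint C' C'' ∧ S ∩ W ⊆ C' ∧ S' ∩ W ⊆ C'' ∧
      (∀ x ∈ C', ∀ y ∈ C'', ¬ G.Adj x y) ∧ (W \ (C' ∪ C'')).card ≤ N / L

/-- [PP dec] (about 200 lines) Decomposition into linked sets.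

Proof. Let `x₀ = K * (L + 1) + N / L`. Claim (strong induction on `U.card`), for `e' ≤ U.card`: there is a
nonempty `F` as in the statement with `e' ≤ C.card` for all `C ∈ F` and
`(U \ F.biUnion id).card + x₀ ≤ F.card * x₀`. If `U` is linked take `F = {U}`. Otherwise there are disjoint
`S, S' ⊆ U` with at least `e` elements that violate the definition. `h1` gives `Y`, `h2` with `W = U \ Y`
gives `C'`, `C''`. `e ≤ S.card ≤ (S ∩ W).card + Y.card`, so `e' ≤ C'.card`, and the same for `C''`. Both are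
smaller than `U` (the other one is not empty). Take `F', F''` for them; `F = F' ∪ F''`. `F'` and `F''` are
disjoint (their members are nonempty and contained in `C'` resp. `C''`), so
`F.card = F'.card + F''.card`; the union of `U \ (C' ∪ C'')` (at most `x₀` elements: `Y` and the layer),
`C' \ F'.biUnion id` and `C'' \ F''.biUnion id` contains `U \ F.biUnion id`.
For `e' ≤ U.card` the members of `F` are pairwise disjoint with at least `e'` elements:
`F.card * e' ≤ N`, so `(U \ F.biUnion id).card * e' ≤ F.card * x₀ * e' ≤ N * x₀`, and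
`Nat.le_div_iff_mul_le`. For `U.card < e'` take `F = {U}`: `U` is linked since `U.card < e` (no `S`
exists). -/
def S_dec : Prop :=
  S_sep → S_ball →
  ∀ (V : Type) [Fintype V] [DecidableEq V] (G : SimpleGraph V) (N L K e e' : ℕ) (U : Finset V),
    Fintype.card V ≤ N → 1 ≤ L → 1 ≤ e' → e' + K * (L + 1) ≤ e →
    ∃ F : Finset (Finset V), (∀ C ∈ F, C ⊆ U ∧ Linked G e K L C) ∧
      (∀ C ∈ F, ∀ C' ∈ F, C ≠ C' → Disjoint C C' ∧ ∀ x ∈ C, ∀ y ∈ C', ¬ G.Adj x y) ∧
      (U \ F.biUnion id).card ≤ N * (K * (L + 1) + N / L) / e'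

/-- the conclusion of `S_dec` -/
def T_dec : Prop :=
  ∀ (V : Type) [Fintype V] [DecidableEq V] (G : SimpleGraph V) (N L K e e' : ℕ) (U : Finset V),
    Fintype.card V ≤ N → 1 ≤ L → 1 ≤ e' → e' + K * (L + 1) ≤ e →
    ∃ F : Finset (Finset V), (∀ C ∈ F, C ⊆ U ∧ Linked G e K L C) ∧
      (∀ C ∈ F, ∀ C' ∈ F, C ≠ C' → Disjoint C C' ∧ ∀ x ∈ C, ∀ y ∈ C', ¬ G.Adj x y) ∧
      (U \ F.biUnion id).card ≤ N * (K * (L + 1) + N / L) / e'

/-! ## Part 4: the partition -/

/-- [PP bbd] (about 60 lines) Paths outside the first part of a longest path.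

Proof. `p.length ≤ Q.length` since `Q` is longest. If `α < D` or `p.length < e` the claim is clear
(`e ≤ D`). Otherwise `h1` for `p` and `Q.take α` (`(p.toFinset ∩ C).card = p.length`) gives a path `q` in
`C` with `p.length + α ≤ q.length + D` (`length_le_of_miss`), and `q.length ≤ Q.length`. -/
def S_bbd : Prop :=
  T_ins →
  ∀ (V : Type) [Fintype V] [DecidableEq V] (G : SimpleGraph V) (N s L K e : ℕ) (C : Finset V),
    Fintype.card V ≤ N → 1 ≤ s → (2 * (N / s + 1) + 1) ^ L ≤ K → (N / s + 1) ^ 2 < K →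
    Linked G e K L C → ∀ (Q p : List V) (α : ℕ), IsP G Q → (∀ v ∈ Q, v ∈ C) → Det G C Q.length →
    α ≤ Q.length → IsP G p → (∀ v ∈ p, v ∈ C ∧ v ∉ Q.take α) →
    p.length + α ≤ Q.length + (3 * e + (L + 2) * s)

/-- the conclusion of `S_bbd` -/
def T_bbd : Prop :=
  ∀ (V : Type) [Fintype V] [DecidableEq V] (G : SimpleGraph V) (N s L K e : ℕ) (C : Finset V),
    Fintype.card V ≤ N → 1 ≤ s → (2 * (N / s + 1) + 1) ^ L ≤ K → (N / s + 1) ^ 2 < K →
    Linked G e K L C → ∀ (Q p : List V) (α : ℕ), IsP G Q → (∀ v ∈ Q, v ∈ C) → Det G C Q.length →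
    α ≤ Q.length → IsP G p → (∀ v ∈ p, v ∈ C ∧ v ∉ Q.take α) →
    p.length + α ≤ Q.length + (3 * e + (L + 2) * s)

/-- [PP abd] (about 200 lines) Paths in `X` and the first parts of the paths `Q C`.

Proof. Let `α C = a * (Q C).length / (a + b)`, `β C = (Q C).length - α C`, `π C = (p.toFinset ∩ C).card`,
`w = e + r * D`. For `C ∈ F` an element of `p` in `C` is in `(Q C).take (α C)` (it is not in `X`, and not in
another `C'`), so `π C ≤ α C`, and an element of `(Q C).drop (α C)` is not in `p`.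
(i) `p.length ≤ X.card + ∑ C ∈ F, π C` (`p.toFinset ⊆ X ∪ F.biUnion (fun C => p.toFinset ∩ C)`).
(ii) Let `F₁ = {C ∈ F | w ≤ π C}`. `∑ C ∈ F \ F₁, π C ≤ r * w`.
(iii) Let `J = {C ∈ F₁ | D ≤ β C}`. `h1` for `J`, the paths `(Q C).drop (α C)` and `p` gives a path `q`
in `U` with `p.length + ∑ C ∈ J, β C ≤ q.length + J.card * D ≤ a + b + r * D`. And
`∑ C ∈ F₁ \ J, β C ≤ r * D`, `∑ C ∈ F₁, π C ≤ p.length` (the sets `p.toFinset ∩ C` are disjoint). So
`∑ C ∈ F₁, π C + ∑ C ∈ F₁, β C ≤ a + b + 2 * r * D`.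
(iv) `a * β C ≥ b * π C`: `π C * (a + b) ≤ α C * (a + b) ≤ a * (Q C).length` and
`β C * (a + b) = (Q C).length * (a + b) - α C * (a + b) ≥ b * (Q C).length`; multiply the first by `b` and
the second by `a` and cancel `a + b > 0`.
(v) `(a + b) * ∑ π = a * ∑ π + b * ∑ π ≤ a * (∑ π + ∑ β) ≤ a * (a + b + 2 * r * D)
≤ (a + b) * (a + 2 * r * D)` (sums over `F₁`), so `∑ C ∈ F₁, π C ≤ a + 2 * r * D`. -/
def S_abd : Prop :=
  T_seq →
  ∀ (V : Type) [Fintype V] [DecidableEq V] (G : SimpleGraph V) (N s L K e : ℕ),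
    Fintype.card V ≤ N → 1 ≤ s → (2 * (N / s + 1) + 1) ^ L ≤ K → (N / s + 1) ^ 2 < K →
    ∀ (a b r : ℕ) (F : Finset (Finset V)) (Q : Finset V → List V) (X U : Finset V) (p : List V),
    F.card ≤ r → (∀ C ∈ F, C ⊆ U ∧ Linked G e K L C ∧ IsP G (Q C) ∧ (∀ v ∈ Q C, v ∈ C) ∧
      Disjoint X C) → (∀ C ∈ F, ∀ C' ∈ F, C ≠ C' → Disjoint C C') → X ⊆ U → Det G U (a + b) →
    1 ≤ a + b → IsP G p →
    (∀ v ∈ p, v ∈ X ∨ ∃ C ∈ F, v ∈ (Q C).take (a * (Q C).length / (a + b))) →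
    p.length ≤ X.card + a + 2 * r * (3 * e + (L + 2) * s) + r * (e + r * (3 * e + (L + 2) * s))

/-- the conclusion of `S_abd` -/
def T_abd : Prop :=
  ∀ (V : Type) [Fintype V] [DecidableEq V] (G : SimpleGraph V) (N s L K e : ℕ),
    Fintype.card V ≤ N → 1 ≤ s → (2 * (N / s + 1) + 1) ^ L ≤ K → (N / s + 1) ^ 2 < K →
    ∀ (a b r : ℕ) (F : Finset (Finset V)) (Q : Finset V → List V) (X U : Finset V) (p : List V),
    F.card ≤ r → (∀ C ∈ F, C ⊆ U ∧ Linked G e K L C ∧ IsP G (Q C) ∧ (∀ v ∈ Q C, v ∈ C) ∧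
      Disjoint X C) → (∀ C ∈ F, ∀ C' ∈ F, C ≠ C' → Disjoint C C') → X ⊆ U → Det G U (a + b) →
    1 ≤ a + b → IsP G p →
    (∀ v ∈ p, v ∈ X ∨ ∃ C ∈ F, v ∈ (Q C).take (a * (Q C).length / (a + b))) →
    p.length ≤ X.card + a + 2 * r * (3 * e + (L + 2) * s) + r * (e + r * (3 * e + (L + 2) * s))

/-- [PP prt] (about 200 lines) The partition, with explicit parameters.

Proof. If `a + b = 0` then `U = ∅` (a vertex is a path of length 1): `A = B = ∅`. Let `1 ≤ a + b`. `h1`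
gives `F₀`; `X = U \ F₀.biUnion id`. For every `C` let `Q C` be a longest path in `C` (lengths are at
most `Fintype.card V`; for example the largest `t` such that a path in `C` with `t` elements exists,
`Nat.findGreatest` or induction), so `Det G C (Q C).length`. `F = {C ∈ F₀ | h ≤ C.card}`:
`F.card * h ≤ N` (disjoint subsets of `V`), so `F.card ≤ r`. Let `α C = a * (Q C).length / (a + b)`,
`A = X ∪ F.biUnion (fun C => ((Q C).take (α C)).toFinset)`, `B = U \ A`. `Det` for `A`: `h3` with this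
`F`, `X.card ≤ N * (K * (L + 1) + N / L) / e'`.
`Det` for `B`: let `p` be a path in `B`, `p ≠ []`. Its first vertex is in some `C ∈ F₀` (it is not in `X`),
and then all its vertices are in `C` (induction along the chain: consecutive vertices are adjacent and
different members of `F₀` are not adjacent). If `C.card < h`: `p.length ≤ C.card`. If `C ∈ F` the vertices
of `p` are not in `(Q C).take (α C)`, `h2` gives `p.length + α C ≤ (Q C).length + D`, and
`(Q C).length - α C ≤ b + 1`: `(Q C).length ≤ a + b` and `a * (Q C).length < (α C + 1) * (a + b)`, so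
`(Q C).length * (a + b) = a * (Q C).length + b * (Q C).length < (α C + 1) * (a + b) + b * (a + b)`. -/
def S_prt : Prop :=
  T_dec → T_bbd → T_abd →
  ∀ (V : Type) [Fintype V] [DecidableEq V] (G : SimpleGraph V) (N s L K e e' h r a b : ℕ)
    (U : Finset V),
    Fintype.card V ≤ N → 1 ≤ s → 1 ≤ L → 1 ≤ e' → e' + K * (L + 1) ≤ e →
    (2 * (N / s + 1) + 1) ^ L ≤ K → (N / s + 1) ^ 2 < K → N < (r + 1) * h → Det G U (a + b) →
    ∃ A B : Finset V, U ⊆ A ∪ B ∧
      Det G A (a + (N * (K * (L + 1) + N / L) / e' + 2 * r * (3 * e + (L + 2) * s) +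
        r * (e + r * (3 * e + (L + 2) * s)))) ∧
      Det G B (b + (h + (3 * e + (L + 2) * s) + 1))

/-- the conclusion of `S_prt` -/
def T_prt : Prop :=
  ∀ (V : Type) [Fintype V] [DecidableEq V] (G : SimpleGraph V) (N s L K e e' h r a b : ℕ)
    (U : Finset V),
    Fintype.card V ≤ N → 1 ≤ s → 1 ≤ L → 1 ≤ e' → e' + K * (L + 1) ≤ e →
    (2 * (N / s + 1) + 1) ^ L ≤ K → (N / s + 1) ^ 2 < K → N < (r + 1) * h → Det G U (a + b) →
    ∃ A B : Finset V, U ⊆ A ∪ B ∧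
      Det G A (a + (N * (K * (L + 1) + N / L) / e' + 2 * r * (3 * e + (L + 2) * s) +
        r * (e + r * (3 * e + (L + 2) * s)))) ∧
      Det G B (b + (h + (3 * e + (L + 2) * s) + 1))

/-- [PP num] (about 150 lines) Choice of the parameters.

Proof. We may assume `η ≤ 1`. Let `r = ⌈4 / η⌉₊`, `h = ⌈η * N / 4⌉₊` (then
`(r + 1) * h ≥ (4 / η + 1) * (η * N / 4) > N`). Let `κ > 0` with `5 * (r ^ 2 + 3 * r) * κ ≤ η / 4`. Let
`L = ⌈64 / (κ * η)⌉₊ + 2`, `M = ⌈(L + 2) / κ⌉₊`, `K = (2 * (M + 1) + 1) ^ L`. These do not depend on `N`.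
`e = ⌈κ * N⌉₊`, `e' = ⌈κ * N / 4⌉₊`, `s = ⌈κ * N / (L + 2)⌉₊`. For large `N`: `N / s ≤ M`,
`(N / s + 1) ^ 2 < (2 * (M + 1) + 1) ^ 2 ≤ K` (`L ≥ 2`), `K * (L + 1) ≤ N / L`,
`e' + K * (L + 1) ≤ e`, `D = 3 * e + (L + 2) * s ≤ 4 * κ * N + L + 5 ≤ 5 * κ * N`. Then
`N * (K * (L + 1) + N / L) / e' ≤ N * (2 * N / L) * 4 / (κ * N) = 8 * N / (κ * L) ≤ η * N / 8` and
`2 * r * D + r * (e + r * D) ≤ (r ^ 2 + 3 * r) * D ≤ η * N / 4`, `h + D + 1 ≤ η * N`
(`D ≤ η * N / 4`). -/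
def S_num : Prop :=
  ∀ η : ℝ, 0 < η → ∃ N₀ : ℕ, ∀ N : ℕ, N₀ ≤ N → ∃ s L K e e' h r : ℕ,
    1 ≤ s ∧ 1 ≤ L ∧ 1 ≤ e' ∧ e' + K * (L + 1) ≤ e ∧ (2 * (N / s + 1) + 1) ^ L ≤ K ∧
    (N / s + 1) ^ 2 < K ∧ N < (r + 1) * h ∧
    N * (K * (L + 1) + N / L) / e' + 2 * r * (3 * e + (L + 2) * s) +
      r * (e + r * (3 * e + (L + 2) * s)) ≤ ⌊η * N⌋₊ ∧
    h + (3 * e + (L + 2) * s) + 1 ≤ ⌊η * N⌋₊

/-! ## Part 5: the theorem for `k` classes and the corollaries -/

/-- two classes -/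
def T_two : Prop :=
  ∀ η : ℝ, 0 < η → ∃ N₀ : ℕ, ∀ N : ℕ, N₀ ≤ N →
    ∀ (V : Type) [Fintype V] [DecidableEq V] (G : SimpleGraph V) (U : Finset V) (a b : ℕ),
    Fintype.card V ≤ N → Det G U (a + b) →
    ∃ A B : Finset V, U ⊆ A ∪ B ∧ Det G A (a + ⌊η * N⌋₊) ∧ Det G B (b + ⌊η * N⌋₊)

/-- `k` classes -/
def T_mul : Prop :=
  ∀ (k : ℕ) (η : ℝ), 0 < η → ∃ N₀ : ℕ, ∀ N : ℕ, N₀ ≤ N →
    ∀ (V : Type) [Fintype V] [DecidableEq V] (G : SimpleGraph V) (U : Finset V) (a : Fin k → ℕ),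
    Fintype.card V ≤ N → Det G U (∑ i, a i) →
    ∃ W : Fin k → Finset V, U ⊆ Finset.univ.biUnion W ∧ ∀ i, Det G (W i) (a i + ⌊η * N⌋₊)

/-- [PP mul] (about 80 lines) From two to `k` classes.

Proof. Induction on `k`. `k = 0`: `U = ∅` (a vertex is a path with one element). `k = 1`: `W 0 = U`.
`k + 2`: take `N₀` = the maximum of the bounds of `h1` and of the induction hypothesis for `η / 2`. `h1`
with `a = a 0`, `b = ∑ i : Fin (k + 1), a i.succ` gives `A`, `B`; the induction hypothesis for `B` and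
`a'` (`a' 0 = a 1 + ⌊η / 2 * N⌋₊`, `a' i = a i.succ` for `i ≠ 0`, for example
`fun i => a i.succ + if i = 0 then ⌊η / 2 * N⌋₊ else 0`) gives `W'`; `W = Fin.cons A W'`. The error is at
most `2 * ⌊η / 2 * N⌋₊ ≤ ⌊η * N⌋₊`. -/
def S_mul : Prop := T_two → T_mul

/-- [PP wlk] (about 60 lines) Walks and lists.

Proof. The support of a path is a list `IsP` (`SimpleGraph.Walk.IsPath.support_nodup`,
`SimpleGraph.Walk.isChain_adj_support`). Conversely for a nonempty list `l` with `IsP G l` the walk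
`SimpleGraph.Walk.ofSupport l hne hc` has support `l` and is a path
(`SimpleGraph.Walk.isPath_def`). -/
def S_wlk : Prop :=
  ∀ (V : Type) (G : SimpleGraph V) (U : Finset V) (t : ℕ),
    (∀ (u v : V) (p : G.Walk u v), p.IsPath → (∀ x ∈ p.support, x ∈ U) → p.support.length ≤ t) ↔
      Det G U t

/-- `t` is the largest order of a path of `G` (the detour number of `G`) -/
def IsDetour {V : Type} (G : SimpleGraph V) (t : ℕ) : Prop :=
  IsGreatest {m : ℕ | ∃ (u v : V) (p : G.Walk u v), p.IsPath ∧ p.support.length = m} t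

/-- `G` has a colouring with `k` colours without a monochromatic path of order greater than `n` -/
def DetCol {V : Type} (G : SimpleGraph V) (n k : ℕ) : Prop :=
  ∃ c : V → Fin k, ∀ (u v : V) (p : G.Walk u v), p.IsPath → (∀ x ∈ p.support, c x = c u) →
    p.support.length ≤ n

/-- [PP thA] (about 100 lines) Theorem A in terms of walks and colourings.

Proof. `h1` for `N = Fintype.card V`, `U = univ`; `Det G univ (∑ i, a i)` by `h2` and `IsDetour`. `W` covers
`univ`; let `c x` be the smallest (or any) `i` with `x ∈ W i`. For `i`: the class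
`{x | c x = i}` is contained in `W i`, `Det.mono`, `h2`. `(a i + ⌊η * N⌋₊ : ℝ) ≤ a i + η * N`. -/
def S_thA : Prop :=
  T_mul → S_wlk →
  ∀ (k : ℕ) (η : ℝ), 0 < η → ∃ N₀ : ℕ, ∀ (V : Type) [Fintype V] (G : SimpleGraph V) (t : ℕ)
    (a : Fin k → ℕ), N₀ ≤ Fintype.card V → IsDetour G t → t ≤ ∑ i, a i →
    ∃ c : V → Fin k, ∀ (i : Fin k) (u v : V) (p : G.Walk u v), p.IsPath →
      (∀ x ∈ p.support, c x = i) → (p.support.length : ℝ) ≤ a i + η * Fintype.card V

/-- the conclusion of `S_thA` -/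
def T_thA : Prop :=
  ∀ (k : ℕ) (η : ℝ), 0 < η → ∃ N₀ : ℕ, ∀ (V : Type) [Fintype V] (G : SimpleGraph V) (t : ℕ)
    (a : Fin k → ℕ), N₀ ≤ Fintype.card V → IsDetour G t → t ≤ ∑ i, a i →
    ∃ c : V → Fin k, ∀ (i : Fin k) (u v : V) (p : G.Walk u v), p.IsPath →
      (∀ x ∈ p.support, c x = i) → (p.support.length : ℝ) ≤ a i + η * Fintype.card V

/-- [PP thB] (about 120 lines) Corollary B.

Proof. Let `k₀ = ⌈(1 + δ) / c⌉₊`, `η = c * δ / (2 * (1 + δ))`, `N₀` = the maximum over `k ≤ k₀` of the bounds of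
`h1` for `k`, `η`, and of `⌈2 / (c * δ) * (1 + δ)⌉₊ + 1`. Let `N = Fintype.card V ≥ N₀`, `c * N ≤ n`,
`k = ⌈(1 + δ) * t / n⌉₊`. `t ≤ N` (a path has at most `N` vertices) and `n ≥ c * N`, so `k ≤ k₀`. `t ≥ 1`
since `V` is not empty, so `k ≥ 1`. Apply `h1` with `a i = ⌈t / k⌉₊` (so `t ≤ k * ⌈t / k⌉₊`).
`⌈t / k⌉₊ ≤ t / k + 1` and `t / k ≤ n / (1 + δ)`, so a monochromatic path has order at most
`n / (1 + δ) + 1 + η * N ≤ n`, because `n - n / (1 + δ) = n * δ / (1 + δ) ≥ c * N * δ / (1 + δ) = 2 * η * N`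
and `η * N ≥ 1`. -/
def S_thB : Prop :=
  T_thA →
  ∀ c δ : ℝ, 0 < c → 0 < δ → ∃ N₀ : ℕ, ∀ (V : Type) [Fintype V] (G : SimpleGraph V) (t n : ℕ),
    N₀ ≤ Fintype.card V → IsDetour G t → c * Fintype.card V ≤ n →
    DetCol G n ⌈(1 + δ) * t / n⌉₊

/-- the conclusion of `S_thB` -/
def T_thB : Prop :=
  ∀ c δ : ℝ, 0 < c → 0 < δ → ∃ N₀ : ℕ, ∀ (V : Type) [Fintype V] (G : SimpleGraph V) (t n : ℕ),
    N₀ ≤ Fintype.card V → IsDetour G t → c * Fintype.card V ≤ n →
    DetCol G n ⌈(1 + δ) * t / n⌉₊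

/-- [PP thC] (about 200 lines) Corollary C.

Proof. We may assume `ε ≤ 1`. Let `k₀ = ⌈4 / ε⌉₊`, `η = ε / (4 * (k₀ + 1))`, `N₀` = the maximum over
`k ≤ k₀` of the bounds of `h1` for `k`, `η`, and of a number with `N₀ * η ≥ 2`. Let `N ≥ N₀`. Let `n` be in
`[1, N]` with `n ≥ ε * N / 2` and `k = ⌈t / n⌉₊`: `t ≤ N`, so `1 ≤ k ≤ ⌈2 / ε⌉₊ ≤ k₀`. `h1` with
`a i = ⌈t / k⌉₊` gives a colouring with monochromatic paths of order at most `t / k + 1 + η * N`. So if
`DetCol G n k` fails then `n < t / k + 1 + η * N`, and `t / k ≤ n`. For every `k` in `[1, k₀]` there are at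
most `η * N + 2` such `n`. Altogether the number of bad `n` is at most
`ε * N / 2 + k₀ * (η * N + 2) ≤ ε * N`. -/
def S_thC : Prop :=
  T_thA →
  ∀ ε : ℝ, 0 < ε → ∃ N₀ : ℕ, ∀ (V : Type) [Fintype V] (G : SimpleGraph V) (t : ℕ),
    N₀ ≤ Fintype.card V → IsDetour G t →
    (Set.ncard {n : ℕ | 1 ≤ n ∧ n ≤ Fintype.card V ∧ ¬ DetCol G n ⌈(t : ℝ) / n⌉₊} : ℝ) ≤
      ε * Fintype.card V

/-- the conclusion of `S_thC` -/
def T_thC : Prop :=
  ∀ ε : ℝ, 0 < ε → ∃ N₀ : ℕ, ∀ (V : Type) [Fintype V] (G : SimpleGraph V) (t : ℕ),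
    N₀ ≤ Fintype.card V → IsDetour G t →
    (Set.ncard {n : ℕ | 1 ≤ n ∧ n ≤ Fintype.card V ∧ ¬ DetCol G n ⌈(t : ℝ) / n⌉₊} : ℝ) ≤
      ε * Fintype.card V

end Pool.Agent.Lib.MP_29e7a7_co.PP
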