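import Pool.Agent.Lib.MP_29e7a7_co.PP.Stm

/-!
# Asymptotic path partition theorem: a bound `N₀` that does not depend on the number of classes
-/

set_option autoImplicit false

namespace Pool.Agent.Lib.MP_29e7a7_co.PP

/-- Theorem A with `N₀` independent of the number `k` of classes -/
def T_uni : Prop :=
  ∀ η : ℝ, 0 < η → ∃ N₀ : ℕ, ∀ (V : Type) [Fintype V] (G : SimpleGraph V) (t k : ℕ)
    (a : Fin k → ℕ), N₀ ≤ Fintype.card V → IsDetour G t → t ≤ ∑ i, a i →
    ∃ c : V → Fin k, ∀ (i : Fin k) (u v : V) (p : G.Walk u v), p.IsPath →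
      (∀ x ∈ p.support, c x = i) → (p.support.length : ℝ) ≤ a i + η * Fintype.card V

/-- [PP uni] (about 120 lines) `N₀` independent of `k`.

Proof. Let `K = ⌈4 / η⌉₊ + 1`, and let `N₀` be the maximum of `⌈4 / η⌉₊ + 1` and of the bounds of `h1`
for `η / 2` and all `k' ≤ K + 1`. Let `N = Fintype.card V ≥ N₀` and `W = ⌈η * N / 4⌉₊`, so `W ≥ 1`,
`W ≤ η * N / 2` (since `η * N / 4 ≥ 1`) and `N / W ≤ K`. `t ≤ N` (a path has at most `N` vertices).
For `i : Fin k` let `s i = min t (∑ j with j ≤ i, a j)`, `r i = min t (∑ j with j < i, a j)`,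
`a' i = s i - r i`; so `a' i ≤ a i`, `∑ i, a' i = t` (telescoping, for example by induction over
`Finset.range k` for the extension of `a` by `0` to `ℕ`; only `t ≤ ∑ i, a' i` is needed), and `s` is
monotone. Let `q i = s i / W`; `q i ≤ t / W ≤ K`. Let `I` be the image of `q`, a subset of `range (K + 1)`,
`k' = I.card ≤ K + 1`, `σ : Fin k' ≃ I` (`I.equivFin.symm` or `I.orderEmbOfFin`), and
`a'' x = ∑ i with q i = σ x, a' i`. Then `∑ x, a'' x = ∑ i, a' i ≥ t`. `h1` for `k'`, `η / 2` and `a''`
gives a colouring `c' : V → Fin k'`. For `x : Fin k'` let `f x` be the smallest `i : Fin k` with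
`q i = σ x`; `f` is injective. Let `c v = f (c' v)`. A path whose vertices have colour `i` under `c`: the
path has a vertex, so `i = f x` for some `x`, and all vertices have colour `x` under `c'`. So its order is
at most `a'' x + η / 2 * N`. And `a'' x ≤ a' (f x) + ∑ i with f x < i ∧ q i = σ x, a' i`, where the last
sum is at most `s m - s (f x) < W` for the largest `m` with `q m = σ x` (telescoping again: the sum of
`a' i` over `f x < i ≤ m` is `s m - s (f x)`, and both are in `[W * σ x, W * σ x + W)`). So the order is at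
most `a (f x) + W + η / 2 * N ≤ a i + η * N`. -/
def S_uni : Prop := T_thA → T_uni

end Pool.Agent.Lib.MP_29e7a7_co.PP
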