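import Pool.Agent.Lib.MP_29e7a7_co.PP.Stm

/-!
# Two classes
-/

set_option autoImplicit false

namespace Pool.Agent.Lib.MP_29e7a7_co.PP

theorem p_two (h1 : T_prt) (h2 : S_num) : T_two := by
  intro η hη
  obtain ⟨N₀, hN₀⟩ := h2 η hη
  refine ⟨N₀, fun N hN V _ _ G U a b hV hU => ?_⟩
  obtain ⟨s, L, K, e, e', h, r, hs, hL, he', hee, hK, hK2, hh, hA, hB⟩ := hN₀ N hN
  obtain ⟨A, B, hAB, hA', hB'⟩ := h1 V G N s L K e e' h r a b U hV hs hL he' hee hK hK2 hh hU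
  exact ⟨A, B, hAB, hA'.mono (Finset.Subset.refl _) (Nat.add_le_add_left hA a),
    hB'.mono (Finset.Subset.refl _) (Nat.add_le_add_left hB b)⟩

end Pool.Agent.Lib.MP_29e7a7_co.PP
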